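import Pool.Agent.Helper35.PI.St3

/-!
Module PB of project PI (MP_b2fa09_gt): the space `W = T + R H` does not depend on time.
-/

set_option autoImplicit false

namespace Helper26.PI

open Helper35.PI
open scoped ContDiff Manifold Topology ENNReal BigOperators
open MeasureTheory Set Filter

variable {n N : ℕ}

theorem mem_of_perp (V : Submodule ℝ (EE N)) (w : EE N)
    (h : ∀ v ∈ Vᗮ, (inner ℝ w v : ℝ) = 0) : w ∈ V := by
  rw [← Submodule.orthogonal_orthogonal V, Submodule.mem_orthogonal]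
  intro u hu
  rw [real_inner_comm]
  exact h u hu

/-- spatial derivatives of a function with values in a subspace -/
theorem jg_mem (V : Submodule ℝ (EE N)) {φ : EE n × ℝ → EE N} {y : EE n} {t : ℝ}
    (hφ : DifferentiableAt ℝ φ (y, t)) (h : ∀ᶠ y' in 𝓝 y, φ (y', t) ∈ V) (k : Fin n) :
    jg φ (y, t) k ∈ V := by
  refine mem_of_perp V _ ?_
  intro v hv
  have hγ : HasDerivAt (fun s : ℝ => ((y + s • ee k, t) : EE n × ℝ)) (ee k, 0) 0 := by
    refine HasDerivAt.prodMk ?_ (hasDerivAt_const _ _)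
    have h1 := ((hasDerivAt_id (0 : ℝ)).smul_const (ee k : EE n)).const_add y
    simpa using h1
  have hφ' : HasFDerivAt φ (fderiv ℝ φ (y, t)) ((fun s : ℝ => ((y + s • ee k, t) : EE n × ℝ)) 0) := by
    have : ((fun s : ℝ => ((y + s • ee k, t) : EE n × ℝ)) 0) = (y, t) := by simp
    rw [this]
    exact hφ.hasFDerivAt
  have h1 := (hφ'.comp_hasDerivAt (0 : ℝ) hγ).inner ℝ (hasDerivAt_const (0 : ℝ) v)
  have h2 : (fun s : ℝ => (inner ℝ ((φ ∘ fun s : ℝ => ((y + s • ee k, t) : EE n × ℝ)) s) v : ℝ))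
      =ᶠ[𝓝 0] fun _ => (0 : ℝ) := by
    have hc : Tendsto (fun s : ℝ => y + s • (ee k : EE n)) (𝓝 0) (𝓝 y) := by
      have : Continuous (fun s : ℝ => y + s • (ee k : EE n)) := by fun_prop
      have h3 := this.tendsto 0
      simpa using h3
    filter_upwards [hc.eventually h] with s hs
    exact Submodule.inner_right_of_mem_orthogonal hs hv
  have h3 : HasDerivAt (fun s : ℝ => (inner ℝ ((φ ∘ fun s : ℝ => ((y + s • ee k, t) : EE n × ℝ)) s) v : ℝ))
      0 0 := (hasDerivAt_const (0 : ℝ) (0 : ℝ)).congr_of_eventuallyEq h2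
  have h4 := h1.unique h3
  simpa [jg] using h4

/-- time derivative along the vertical line -/
theorem hasDerivAt_jt {V : Type} [NormedAddCommGroup V] [NormedSpace ℝ V] {φ : EE n × ℝ → V}
    {y : EE n} {t : ℝ} (hφ : DifferentiableAt ℝ φ (y, t)) :
    HasDerivAt (fun τ => φ (y, τ)) (jt φ (y, t)) t := by
  have hγ : HasDerivAt (fun τ : ℝ => ((y, τ) : EE n × ℝ)) (0, 1) t :=
    (hasDerivAt_const _ _).prodMk (hasDerivAt_id _)
  exact (hφ.hasFDerivAt).comp_hasDerivAt t hγ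

theorem snd_symm {f : EE n × ℝ → EE N} {z₀ : EE n × ℝ} (h : ContDiffAt ℝ ∞ f z₀)
    (a b : EE n × ℝ) : fderiv ℝ (fun z => fderiv ℝ f z a) z₀ b
      = fderiv ℝ (fun z => fderiv ℝ f z b) z₀ a := by
  have hd : DifferentiableAt ℝ (fderiv ℝ f) z₀ :=
    (h.fderiv_right (m := ∞) (by simp)).differentiableAt (by simp)
  have key : ∀ a b : EE n × ℝ, fderiv ℝ (fun z => fderiv ℝ f z a) z₀ b
      = fderiv ℝ (fderiv ℝ f) z₀ b a := by
    intro a b
    have h1 := ((ContinuousLinearMap.apply ℝ (EE N) a).hasFDerivAt.comp z₀ hd.hasFDerivAt).fderiv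
    have h2 : (fun z => fderiv ℝ f z a) = (⇑(ContinuousLinearMap.apply ℝ (EE N) a) ∘ fderiv ℝ f) := rfl
    rw [h2, h1]
    rfl
  rw [key, key]
  have hs : IsSymmSndFDerivAt ℝ f z₀ := h.isSymmSndFDerivAt (by
    rw [minSmoothness_of_isRCLikeNormedField]
    exact WithTop.coe_le_coe.2 le_top)
  exact hs b a

theorem smooth_fderiv_apply {V : Type} [NormedAddCommGroup V] [NormedSpace ℝ V]
    {f : EE n × ℝ → V} {z₀ : EE n × ℝ} (h : ContDiffAt ℝ ∞ f z₀)
    (a : EE n × ℝ) : ContDiffAt ℝ ∞ (fun z => fderiv ℝ f z a) z₀ :=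
  (h.fderiv_right (m := ∞) (by simp)).clm_apply contDiffAt_const

/-- The local situation of module PB: a smooth family of immersions in a chart, moving by mean curvature, whose
spaces `T + R H` depend on time only. -/
structure Sit (f : EE n × ℝ → EE N) (U : Set (EE n)) (J : Set ℝ) (V : ℝ → Submodule ℝ (EE N)) : Prop where
  hU : IsOpen U
  hJ : IsOpen J
  smooth : ∀ z ∈ U ×ˢ J, ContDiffAt ℝ ∞ f z
  li : ∀ z ∈ U ×ˢ J, LI (fun y => f (y, z.2)) z.1
  flow : ∀ z ∈ U ×ˢ J, jt f z = mcv (fun y => f (y, z.2)) z.1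
  ne : ∀ z ∈ U ×ˢ J, mcv (fun y => f (y, z.2)) z.1 ≠ 0
  sp : ∀ z ∈ U ×ˢ J, Submodule.span ℝ (range fun i => dv1 (fun y => f (y, z.2)) z.1 i) ⊔
    Submodule.span ℝ {mcv (fun y => f (y, z.2)) z.1} = V z.2

section
variable {f : EE n × ℝ → EE N} {U : Set (EE n)} {J : Set ℝ} {V : ℝ → Submodule ℝ (EE N)}

/-- the mean curvature vector as a function on space time -/
noncomputable def Hm (f : EE n × ℝ → EE N) (z : EE n × ℝ) : EE N := mcv (fun y => f (y, z.2)) z.1

variable (hSM : StSM) (hNR : StNR) (h : Sit f U J V)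
include h

theorem Sit.open' : IsOpen (U ×ˢ J) := h.hU.prod h.hJ

theorem Sit.slice {z : EE n × ℝ} (hz : z ∈ U ×ˢ J) : ∀ᶠ y' in 𝓝 z.1, (y', z.2) ∈ U ×ˢ J := by
  filter_upwards [h.hU.mem_nhds hz.1] with y' hy'
  exact ⟨hy', hz.2⟩

include hSM

theorem Sit.dv1_eq {z : EE n × ℝ} (hz : z ∈ U ×ˢ J) (i : Fin n) :
    dv1 (fun y => f (y, z.2)) z.1 i = jg f z i :=
  ((hSM n N f z (h.smooth z hz) (h.li z hz)).1.self_of_nhds).2.2.1 i

theorem Sit.dv2_eq {z : EE n × ℝ} (hz : z ∈ U ×ˢ J) (i j : Fin n) :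
    dv2 (fun y => f (y, z.2)) z.1 i j = jgg f z i j :=
  ((hSM n N f z (h.smooth z hz) (h.li z hz)).1.self_of_nhds).2.2.2.1 i j

theorem Sit.jg_f_mem {z : EE n × ℝ} (hz : z ∈ U ×ˢ J) (i : Fin n) : jg f z i ∈ V z.2 := by
  rw [← h.sp z hz, ← h.dv1_eq hSM hz]
  exact Submodule.mem_sup_left (Submodule.subset_span ⟨i, rfl⟩)

theorem Sit.smH {z : EE n × ℝ} (hz : z ∈ U ×ˢ J) : ContDiffAt ℝ ∞ (Hm f) z :=
  (hSM n N f z (h.smooth z hz) (h.li z hz)).2.2.2.2.2.2.2.1

omit hSM in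
theorem Sit.H_mem {z : EE n × ℝ} (hz : z ∈ U ×ˢ J) : Hm f z ∈ V z.2 := by
  rw [← h.sp z hz]
  exact Submodule.mem_sup_right (Submodule.subset_span rfl)

theorem Sit.jgH_mem {z : EE n × ℝ} (hz : z ∈ U ×ˢ J) (i : Fin n) : jg (Hm f) z i ∈ V z.2 := by
  refine jg_mem (V z.2) (φ := Hm f) (y := z.1) (t := z.2) ?_ ?_ i
  · exact (h.smH hSM hz).differentiableAt (by simp)
  · filter_upwards [h.slice hz] with y' hy'
    exact h.H_mem hy'

theorem Sit.jgjgH_mem {z : EE n × ℝ} (hz : z ∈ U ×ˢ J) (i j : Fin n) :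
    jg (fun z => jg (Hm f) z j) z i ∈ V z.2 := by
  refine jg_mem (V z.2) (φ := fun z => jg (Hm f) z j) (y := z.1) (t := z.2) ?_ ?_ i
  · exact (smooth_fderiv_apply (h.smH hSM hz) (ee j, 0)).differentiableAt (by simp)
  · filter_upwards [h.slice hz] with y' hy'
    exact h.jgH_mem hSM hy' j

theorem Sit.jgg_mem {z : EE n × ℝ} (hz : z ∈ U ×ˢ J) (i j : Fin n) : jgg f z i j ∈ V z.2 := by
  refine jg_mem (V z.2) (φ := fun z => jg f z j) (y := z.1) (t := z.2) ?_ ?_ i
  · exact (smooth_fderiv_apply (h.smooth z hz) (ee j, 0)).differentiableAt (by simp)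
  · filter_upwards [h.slice hz] with y' hy'
    exact h.jg_f_mem hSM hy' j

omit hSM in
theorem Sit.jt_jg {z : EE n × ℝ} (hz : z ∈ U ×ˢ J) (i : Fin n) :
    jt (fun z => jg f z i) z = jg (Hm f) z i := by
  have h1 : jt (fun z => jg f z i) z = jg (fun z => jt f z) z i :=
    snd_symm (h.smooth z hz) (ee i, 0) (0, 1)
  rw [h1]
  have h2 : (fun z => jt f z) =ᶠ[𝓝 z] Hm f := by
    filter_upwards [h.open'.mem_nhds hz] with z' hz'
    exact h.flow z' hz'
  unfold jg
  rw [h2.fderiv_eq]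

theorem Sit.jt_jg_mem {z : EE n × ℝ} (hz : z ∈ U ×ˢ J) (i : Fin n) :
    jt (fun z => jg f z i) z ∈ V z.2 := by
  rw [h.jt_jg hz]
  exact h.jgH_mem hSM hz i

theorem Sit.jt_jgg_mem {z : EE n × ℝ} (hz : z ∈ U ×ˢ J) (i j : Fin n) :
    jt (fun z => jgg f z i j) z ∈ V z.2 := by
  have h0 : ContDiffAt ℝ ∞ (fun z => jg f z j) z := smooth_fderiv_apply (h.smooth z hz) (ee j, 0)
  have h1 : jt (fun z => jgg f z i j) z = jg (fun z => jt (fun z => jg f z j) z) z i :=
    snd_symm h0 (ee i, 0) (0, 1)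
  rw [h1]
  have h2 : (fun z => jt (fun z => jg f z j) z) =ᶠ[𝓝 z] fun z => jg (Hm f) z j := by
    filter_upwards [h.open'.mem_nhds hz] with z' hz'
    exact h.jt_jg hz' j
  have h3 : jg (fun z => jt (fun z => jg f z j) z) z i = jg (fun z => jg (Hm f) z j) z i := by
    unfold jg at h2 ⊢
    rw [h2.fderiv_eq]
  rw [h3]
  exact h.jgjgH_mem hSM hz i j

end

/-- value and derivative vanish -/
def Zr (t : ℝ) (b : ℝ → ℝ) : Prop := HasDerivAt b 0 t ∧ b t = 0

theorem Zr.mul {t : ℝ} {a b : ℝ → ℝ} (ha : DifferentiableAt ℝ a t) (hb : Zr t b) :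
    Zr t (fun τ => a τ * b τ) := by
  refine ⟨?_, ?_⟩
  · have h1 := ha.hasDerivAt.fun_mul hb.1
    rw [hb.2] at h1
    simpa using h1
  · show a t * b t = 0
    rw [hb.2, mul_zero]

theorem Zr.sub {t : ℝ} {a b : ℝ → ℝ} (ha : Zr t a) (hb : Zr t b) : Zr t (fun τ => a τ - b τ) := by
  refine ⟨?_, ?_⟩
  · have h1 := ha.1.fun_sub hb.1
    simpa using h1
  · show a t - b t = 0
    rw [ha.2, hb.2, sub_zero]

theorem Zr.sum {t : ℝ} {ι : Type} [Fintype ι] {a : ι → ℝ → ℝ} (ha : ∀ i, Zr t (a i)) :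
    Zr t (fun τ => ∑ i, a i τ) := by
  refine ⟨?_, ?_⟩
  · have h1 := HasDerivAt.fun_sum (u := Finset.univ) (A := a) (A' := fun _ => (0 : ℝ)) (x := t)
      fun i _ => (ha i).1
    simpa using h1
  · show ∑ i, a i t = 0
    exact Finset.sum_eq_zero fun i _ => (ha i).2

section
variable {f : EE n × ℝ → EE N} {U : Set (EE n)} {J : Set ℝ} {V : ℝ → Submodule ℝ (EE N)}
variable (hSM : StSM) (hNR : StNR) (h : Sit f U J V)
include hSM h

theorem Sit.jtH_mem {z : EE n × ℝ} (hz : z ∈ U ×ˢ J) : jt (Hm f) z ∈ V z.2 := by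
  refine mem_of_perp _ _ ?_
  intro v hv
  obtain ⟨-, -, -, -, -, sGI, -, -, -, -⟩ := hSM n N f z (h.smooth z hz) (h.li z hz)
  have e1 : HasDerivAt (fun τ => (inner ℝ (Hm f (z.1, τ)) v : ℝ)) (inner ℝ (jt (Hm f) z) v) z.2 := by
    have h1 := (hasDerivAt_jt (φ := Hm f) (y := z.1) (t := z.2)
      ((h.smH hSM hz).differentiableAt (by simp))).inner ℝ (hasDerivAt_const z.2 v)
    simpa using h1
  have sjg : ∀ l, ContDiffAt ℝ ∞ (fun z => jg f z l) z := fun l =>
    smooth_fderiv_apply (h.smooth z hz) (ee l, 0)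
  have sjgg : ∀ i j, ContDiffAt ℝ ∞ (fun z => jgg f z i j) z := fun i j =>
    smooth_fderiv_apply (sjg j) (ee i, 0)
  have z1 : ∀ l, Zr z.2 (fun τ => (inner ℝ (jg f (z.1, τ) l) v : ℝ)) := by
    intro l
    have h1 := (hasDerivAt_jt (φ := fun z => jg f z l) (y := z.1) (t := z.2)
      ((sjg l).differentiableAt (by simp))).inner ℝ (hasDerivAt_const z.2 v)
    have h2 : (inner ℝ (jt (fun z => jg f z l) z) v : ℝ) = 0 :=
      Submodule.inner_right_of_mem_orthogonal (h.jt_jg_mem hSM hz l) hv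
    have h3 : (inner ℝ (jg f z l) v : ℝ) = 0 :=
      Submodule.inner_right_of_mem_orthogonal (h.jg_f_mem hSM hz l) hv
    refine ⟨?_, h3⟩
    simpa [h2] using h1
  have z2 : ∀ i j, Zr z.2 (fun τ => (inner ℝ (jgg f (z.1, τ) i j) v : ℝ)) := by
    intro i j
    have h1 := (hasDerivAt_jt (φ := fun z => jgg f z i j) (y := z.1) (t := z.2)
      ((sjgg i j).differentiableAt (by simp))).inner ℝ (hasDerivAt_const z.2 v)
    have h2 : (inner ℝ (jt (fun z => jgg f z i j) z) v : ℝ) = 0 :=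
      Submodule.inner_right_of_mem_orthogonal (h.jt_jgg_mem hSM hz i j) hv
    have h3 : (inner ℝ (jgg f z i j) v : ℝ) = 0 :=
      Submodule.inner_right_of_mem_orthogonal (h.jgg_mem hSM hz i j) hv
    refine ⟨?_, h3⟩
    simpa [h2] using h1
  have dGI : ∀ i j, DifferentiableAt ℝ
      (fun τ => (gram (fun y => f (y, τ)) z.1)⁻¹ i j) z.2 := fun i j =>
    (hasDerivAt_jt (φ := fun z : EE n × ℝ => (gram (fun y => f (y, z.2)) z.1)⁻¹ i j)
      (y := z.1) (t := z.2) ((sGI i j).differentiableAt (by simp))).differentiableAt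
  have dI : ∀ i j k, DifferentiableAt ℝ
      (fun τ => (inner ℝ (jgg f (z.1, τ) i j) (jg f (z.1, τ) k) : ℝ)) z.2 := fun i j k =>
    (hasDerivAt_jt (φ := fun z => jgg f z i j) (y := z.1) (t := z.2)
      ((sjgg i j).differentiableAt (by simp))).differentiableAt.inner ℝ
      (hasDerivAt_jt (φ := fun z => jg f z k) (y := z.1) (t := z.2)
        ((sjg k).differentiableAt (by simp))).differentiableAt
  have zz : Zr z.2 (fun τ => ∑ i, ∑ j, (gram (fun y => f (y, τ)) z.1)⁻¹ i j *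
      ((inner ℝ (jgg f (z.1, τ) i j) v : ℝ) - ∑ k, ∑ l, ((gram (fun y => f (y, τ)) z.1)⁻¹ k l *
        inner ℝ (jgg f (z.1, τ) i j) (jg f (z.1, τ) k)) * inner ℝ (jg f (z.1, τ) l) v)) := by
    refine Zr.sum fun i => Zr.sum fun j => Zr.mul (dGI i j) (Zr.sub (z2 i j) ?_)
    exact Zr.sum fun k => Zr.sum fun l => Zr.mul ((dGI k l).mul (dI i j k)) (z1 l)
  have e2 : HasDerivAt (fun τ => (inner ℝ (Hm f (z.1, τ)) v : ℝ)) 0 z.2 := by
    refine zz.1.congr_of_eventuallyEq ?_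
    filter_upwards [h.hJ.mem_nhds hz.2] with τ hτ
    have hz' : (z.1, τ) ∈ U ×ˢ J := ⟨hz.1, hτ⟩
    have a1 : ∀ i, dv1 (fun y => f (y, τ)) z.1 i = jg f (z.1, τ) i := fun i => h.dv1_eq hSM hz' i
    have a2 : ∀ i j, dv2 (fun y => f (y, τ)) z.1 i j = jgg f (z.1, τ) i j := fun i j =>
      h.dv2_eq hSM hz' i j
    simp only [Hm, mcv, sff, nrm, sum_inner, inner_smul_left, inner_sub_left, a1, a2, conj_trivial]
  exact e1.unique e2

include hNR

/-- the expansion of the elements of `V` -/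
theorem Sit.expand {z : EE n × ℝ} (hz : z ∈ U ×ˢ J) (w : EE N) (hw : w ∈ V z.2) :
    w = (∑ l, (∑ k, (gram (fun y => f (y, z.2)) z.1)⁻¹ k l * inner ℝ w (jg f z k)) • jg f z l) +
      ((inner ℝ w (Hm f z) : ℝ) / ‖Hm f z‖ ^ 2) • Hm f z := by
  obtain ⟨n1, n2, n3, n4, n5, n6, n7, n8⟩ := hNR n N (fun y => f (y, z.2)) z.1 (h.li z hz)
  have hH : nrm (fun y => f (y, z.2)) z.1 (Hm f z) = Hm f z := by
    refine n4 _ ?_
    intro i
    unfold Hm mcv sff
    rw [sum_inner]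
    refine Finset.sum_eq_zero fun a _ => ?_
    rw [sum_inner]
    refine Finset.sum_eq_zero fun b _ => ?_
    rw [inner_smul_left, n1, mul_zero]
  have hne : ‖Hm f z‖ ^ 2 ≠ 0 := by
    have := h.ne z hz
    exact pow_ne_zero 2 (norm_ne_zero_iff.2 this)
  rw [← h.sp z hz] at hw
  obtain ⟨a, ha, b, hb, rfl⟩ := Submodule.mem_sup.1 hw
  obtain ⟨c, rfl⟩ := Submodule.mem_span_singleton.1 hb
  have e0 : nrm (fun y => f (y, z.2)) z.1 (a + c • mcv (fun y => f (y, z.2)) z.1) = c • Hm f z := by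
    rw [n5, n2 a ha, n6, zero_add]
    exact congrArg (fun x => c • x) hH
  have e1 : (inner ℝ (a + c • mcv (fun y => f (y, z.2)) z.1) (Hm f z) : ℝ) = c * ‖Hm f z‖ ^ 2 := by
    rw [← hH, ← n7, e0, inner_smul_left, hH, real_inner_self_eq_norm_sq]
    simp
  have e2 : (inner ℝ (a + c • mcv (fun y => f (y, z.2)) z.1) (Hm f z) : ℝ) / ‖Hm f z‖ ^ 2 = c := by
    rw [e1, mul_div_assoc, div_self hne, mul_one]
  rw [e2]
  have e3 : ∀ w : EE N, w = nrm (fun y => f (y, z.2)) z.1 w +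
      ∑ l, (∑ k, (gram (fun y => f (y, z.2)) z.1)⁻¹ k l * inner ℝ w (jg f z k)) • jg f z l := by
    intro w
    unfold nrm
    rw [Finset.sum_comm]
    simp only [h.dv1_eq hSM hz, Finset.sum_smul]
    abel
  have e4 := e3 (a + c • mcv (fun y => f (y, z.2)) z.1)
  rw [e0] at e4
  exact e4.trans (add_comm _ _)

/-- the spaces `V t` are constant on intervals -/
theorem Sit.const (hGW : StGW) {y₀ : EE n} (hy : y₀ ∈ U) {a b : ℝ} (hab : a ≤ b)
    (hJ : Icc a b ⊆ J) : V a = V b := by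
  classical
  have hz : ∀ s ∈ Icc a b, (y₀, s) ∈ U ×ˢ J := fun s hs => ⟨hy, hJ hs⟩
  -- continuity along the vertical line
  have hcont : ∀ {W : Type} [NormedAddCommGroup W] [NormedSpace ℝ W] (φ : EE n × ℝ → W),
      (∀ z ∈ U ×ˢ J, ContDiffAt ℝ ∞ φ z) → ContinuousOn (fun s => φ (y₀, s)) (Icc a b) := by
    intro W _ _ φ hφ s hs
    exact (hasDerivAt_jt ((hφ _ (hz s hs)).differentiableAt (by simp))).continuousAt.continuousWithinAt
  have sjg : ∀ l, ∀ z ∈ U ×ˢ J, ContDiffAt ℝ ∞ (fun z => jg f z l) z := fun l z hz =>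
    smooth_fderiv_apply (h.smooth z hz) (ee l, 0)
  have sH : ∀ z ∈ U ×ˢ J, ContDiffAt ℝ ∞ (Hm f) z := fun z hz => h.smH hSM hz
  have sjt : ∀ l, ∀ z ∈ U ×ˢ J, ContDiffAt ℝ ∞ (fun z => jt (fun z => jg f z l) z) z := fun l z hz =>
    smooth_fderiv_apply (sjg l z hz) (0, 1)
  have sjH : ∀ z ∈ U ×ˢ J, ContDiffAt ℝ ∞ (fun z => jt (Hm f) z) z := fun z hz =>
    smooth_fderiv_apply (sH z hz) (0, 1)
  have sGI : ∀ i j, ∀ z ∈ U ×ˢ J, ContDiffAt ℝ ∞
      (fun z : EE n × ℝ => (gram (fun y => f (y, z.2)) z.1)⁻¹ i j) z := fun i j z hz =>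
    (hSM n N f z (h.smooth z hz) (h.li z hz)).2.2.2.2.2.1 i j
  let e : Fin (n + 1) → ℝ → EE N :=
    Fin.snoc (α := fun _ => ℝ → EE N) (fun i s => jg f (y₀, s) i) (fun s => Hm f (y₀, s))
  let D : Fin (n + 1) → ℝ → EE N :=
    Fin.snoc (α := fun _ => ℝ → EE N) (fun i s => jt (fun z => jg f z i) (y₀, s))
      (fun s => jt (Hm f) (y₀, s))
  let C : Fin (n + 1) → Fin (n + 1) → ℝ → ℝ := fun i =>
    Fin.snoc (α := fun _ => ℝ → ℝ)
      (fun l s => ∑ k, (gram (fun y => f (y, s)) y₀)⁻¹ k l * inner ℝ (D i s) (jg f (y₀, s) k))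
      (fun s => (inner ℝ (D i s) (Hm f (y₀, s)) : ℝ) / ‖Hm f (y₀, s)‖ ^ 2)
  have ec : ∀ i, ContinuousOn (e i) (Icc a b) := by
    intro i
    refine Fin.lastCases ?_ (fun l => ?_) i
    · simp only [e, Fin.snoc_last]
      exact hcont (Hm f) sH
    · simp only [e, Fin.snoc_castSucc]
      exact hcont (fun z => jg f z l) (sjg l)
  have Dc : ∀ i, ContinuousOn (D i) (Icc a b) := by
    intro i
    refine Fin.lastCases ?_ (fun l => ?_) i
    · simp only [D, Fin.snoc_last]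
      exact hcont (fun z => jt (Hm f) z) sjH
    · simp only [D, Fin.snoc_castSucc]
      exact hcont (fun z => jt (fun z => jg f z l) z) (sjt l)
  have eD : ∀ i, ∀ s ∈ Icc a b, HasDerivAt (e i) (D i s) s := by
    intro i s hs
    refine Fin.lastCases ?_ (fun l => ?_) i
    · simp only [e, D, Fin.snoc_last]
      exact hasDerivAt_jt ((sH _ (hz s hs)).differentiableAt (by simp))
    · simp only [e, D, Fin.snoc_castSucc]
      exact hasDerivAt_jt (φ := fun z => jg f z l) ((sjg l _ (hz s hs)).differentiableAt (by simp))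
  have Dmem : ∀ i, ∀ s ∈ Icc a b, D i s ∈ V s := by
    intro i s hs
    refine Fin.lastCases ?_ (fun l => ?_) i
    · simp only [D, Fin.snoc_last]
      exact h.jtH_mem hSM (hz s hs)
    · simp only [D, Fin.snoc_castSucc]
      exact h.jt_jg_mem hSM (hz s hs) l
  have hexp : ∀ i, ∀ s ∈ Icc a b, D i s = ∑ j, C i j s • e j s := by
    intro i s hs
    rw [Fin.sum_univ_castSucc]
    simp only [C, e, Fin.snoc_castSucc, Fin.snoc_last]
    exact h.expand hSM hNR (hz s hs) (D i s) (Dmem i s hs)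
  have Cc : ∀ i j, ContinuousOn (C i j) (Icc a b) := by
    intro i j
    refine Fin.lastCases ?_ (fun l => ?_) j
    · simp only [C, Fin.snoc_last]
      refine (ContinuousOn.inner (𝕜 := ℝ) (Dc i) (hcont (Hm f) sH)).div ((hcont (Hm f) sH).norm.pow 2) ?_
      intro s hs
      exact pow_ne_zero 2 (norm_ne_zero_iff.2 (h.ne _ (hz s hs)))
    · simp only [C, Fin.snoc_castSucc]
      refine continuousOn_finset_sum _ fun k _ => ?_
      exact (hcont (fun z : EE n × ℝ => (gram (fun y => f (y, z.2)) z.1)⁻¹ k l) (sGI k l)).mul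
        (ContinuousOn.inner (𝕜 := ℝ) (Dc i) (hcont (fun z => jg f z k) (sjg k)))
  obtain ⟨B, hB⟩ := isCompact_Icc.exists_bound_of_continuousOn
    (f := fun s => fun i j => C i j s) (continuousOn_pi.2 fun i => continuousOn_pi.2 fun j => Cc i j)
  have key := hGW N (n + 1) a b e C B hab ec
    (fun i s hs => by rw [← hexp i s (Ioo_subset_Icc_self hs)]; exact eD i s (Ioo_subset_Icc_self hs))
    (fun i j s hs => by
      have h1 := hB s (Ioo_subset_Icc_self hs)
      have h2 := norm_le_pi_norm (fun i j => C i j s) i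
      have h3 := norm_le_pi_norm (fun j => C i j s) j
      exact (h3.trans h2).trans h1)
  have perp : ∀ s ∈ Icc a b, ∀ v : EE N, v ∈ (V s)ᗮ ↔ ∀ i, (inner ℝ (e i s) v : ℝ) = 0 := by
    intro s hs v
    constructor
    · intro hv i
      refine Submodule.inner_right_of_mem_orthogonal ?_ hv
      refine Fin.lastCases ?_ (fun l => ?_) i
      · simp only [e, Fin.snoc_last]
        exact h.H_mem (hz s hs)
      · simp only [e, Fin.snoc_castSucc]
        exact h.jg_f_mem hSM (hz s hs) l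
    · intro hv
      rw [Submodule.mem_orthogonal]
      intro u hu
      rw [h.expand hSM hNR (hz s hs) u hu, inner_add_left, sum_inner, inner_smul_left]
      have hl := hv (Fin.last n)
      simp only [e, Fin.snoc_last] at hl
      rw [hl, mul_zero, add_zero]
      refine Finset.sum_eq_zero fun l _ => ?_
      have hl2 := hv (Fin.castSucc l)
      simp only [e, Fin.snoc_castSucc] at hl2
      rw [inner_smul_left, hl2, mul_zero]
  have h1 : (V a)ᗮ = (V b)ᗮ := by
    ext v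
    rw [perp a (left_mem_Icc.2 hab), perp b (right_mem_Icc.2 hab)]
    exact key v
  rw [← Submodule.orthogonal_orthogonal (V a), h1, Submodule.orthogonal_orthogonal]

end

theorem hPB (hGW : StGW) (hI2 : StI2) (hI3 : StI3) (hSM : StSM) (hNR : StNR) : StPB := by
  intro n N hn M _ _ _ _ F hF J hJo hJc hJ hne hWS
  have main : ∀ t ∈ J, ∀ t' ∈ J, t ≤ t' → ∀ p : M, WS n F p t = WS n F p t' := by
    intro t ht t' ht' htt p
    have hS : Sit (fun z : EE n × ℝ => F ((chartAt (EE n) p).symm z.1) z.2)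
        (chartAt (EE n) p).target J (fun τ => WS n F p τ) := by
      have hq : ∀ z ∈ (chartAt (EE n) p).target ×ˢ J,
          (chartAt (EE n) p).symm z.1 ∈ (chartAt (EE n) p).source ∧
          chartAt (EE n) p ((chartAt (EE n) p).symm z.1) = z.1 := fun z hz =>
        ⟨(chartAt (EE n) p).map_target hz.1, (chartAt (EE n) p).right_inv hz.1⟩
      have sm : ∀ z ∈ (chartAt (EE n) p).target ×ˢ J, ContDiffAt ℝ ∞
          (fun z : EE n × ℝ => F ((chartAt (EE n) p).symm z.1) z.2) z := fun z hz =>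
        (hI2 n N M F hF p).contDiffAt
          (((chartAt (EE n) p).open_target.prod isOpen_Iio).mem_nhds ⟨hz.1, hJ hz.2⟩)
      refine ⟨(chartAt (EE n) p).open_target, hJo, sm, ?_, ?_, ?_, ?_⟩
      · intro z hz
        obtain ⟨h1, h2⟩ := hq z hz
        have h3 := (hI3 n N M F hF p _ z.2 (hJ hz.2) h1).1
        rw [h2] at h3
        exact h3
      · intro z hz
        obtain ⟨h1, h2⟩ := hq z hz
        have h3 := (hI3 n N M F hF p _ z.2 (hJ hz.2) h1).2.1
        rw [h2] at h3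
        have h4 := hasDerivAt_jt (y := z.1) (t := z.2) ((sm z hz).differentiableAt (by simp))
        have h5 := hF.flow ((chartAt (EE n) p).symm z.1) z.2 (hJ hz.2)
        exact (h4.unique h5).trans h3
      · intro z hz
        obtain ⟨h1, h2⟩ := hq z hz
        have h3 := (hI3 n N M F hF p _ z.2 (hJ hz.2) h1).2.1
        rw [h2] at h3
        have h4 := hne z.2 hz.2 ((chartAt (EE n) p).symm z.1)
        rw [h3] at h4
        exact h4
      · intro z hz
        obtain ⟨h1, h2⟩ := hq z hz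
        obtain ⟨-, h3, -, -, h4⟩ := hI3 n N M F hF p _ z.2 (hJ hz.2) h1
        rw [h2] at h3 h4
        have h5 := hWS z.2 hz.2 ((chartAt (EE n) p).symm z.1) p
        show _ = WS n F p z.2
        rw [← h5]
        unfold WS
        rw [h3, h4]
        rfl
    exact hS.const hSM hNR hGW (mem_chart_target (EE n) p) htt (hJc.ordConnected.out ht ht')
  intro t ht t' ht' p
  rcases le_total t t' with h | h
  · exact main t ht t' ht' h p
  · exact (main t' ht' t ht h p).symm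

end Helper26.PI
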